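import Pool.Agent.Helper78_NDM.Stmts

/-!
# Squad NDM, module EMP: strata of sets which are not closed are empty
-/

set_option autoImplicit false

namespace Pool.Agent.NDM.H63

open Pool.Agent.Helper6_Mono Pool.Agent.Helper32_OMP Pool.Agent.NDM

/-- The value of a linear form as a linear function of the form. -/
def lfL {k : Type} [Field k] {σ : Type} [Fintype σ] {A : Type*} [AddCommMonoid A] [Module k A]
    (x : σ → A) : (σ → k) →ₗ[k] A where
  toFun a := lf a x
  map_add' a b := by simp [lf, add_smul, Finset.sum_add_distrib]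
  map_smul' c a := by simp [lf, Finset.smul_sum, mul_smul]

theorem emp : EmpStmt := by
  intro k _ σ ι _ L F G i hGF hiF hiG hspn θ S _ _ x
  have h1 : spn L G ≤ LinearMap.ker (lfL (k := k) x.1) := by
    refine Submodule.span_le.2 ?_
    rintro _ ⟨j, hj, rfl⟩
    exact (x.2 j (hGF hj)).1 hj
  have h2 : lf (L i) x.1 = 0 := h1 hspn
  have h3 := (x.2 i hiF).2 hiG
  rw [h2] at h3
  exact (isUnit_zero_iff.1 h3).symm

end Pool.Agent.NDM.H63
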