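import Pool.Agent.Helper78_NDM.Stmts
import Pool.Agent.Helper6_Mono.Cells

/-!
# Squad NDM, module KER: the stratum `G = F` is a linear space
-/

set_option autoImplicit false

namespace Pool.Agent.NDM.H63

open PowerSeries Finset Pool.Agent.Helper6_Mono Pool.Agent.Helper32_OMP Pool.Agent.NDM

section coord

variable {k : Type} [Field k] {σ : Type} [Fintype σ]

/-- The value of a linear form as a linear function of the form. -/
def lfK {A : Type*} [AddCommMonoid A] [Module k A] (x : σ → A) : (σ → k) →ₗ[k] A where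
  toFun a := lf a x
  map_add' a b := by simp [lf, add_smul, Finset.sum_add_distrib]
  map_smul' c a := by simp [lf, Finset.smul_sum, mul_smul]

theorem lfK_apply {A : Type*} [AddCommMonoid A] [Module k A] (x : σ → A) (a : σ → k) :
    lfK x a = lf a x := rfl

/-- Coordinates on the common kernel of a space of forms. -/
theorem exists_coord (U : Submodule k (σ → k)) :
    ∃ (n : ℕ) (b : Fin n → σ → k) (c : σ → Fin n → k),
      n + Module.finrank k U = Fintype.card σ ∧
      (∀ (S : Type) [AddCommGroup S] [Module k S] (x : σ → S), (∀ a ∈ U, lf a x = 0) →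
        ∀ l, ∑ t, c l t • lf (b t) x = x l) ∧
      ∀ (S : Type) [AddCommGroup S] [Module k S] (y : Fin n → S),
        (∀ a ∈ U, lf a (fun l => ∑ t, c l t • y t) = 0) ∧
        ∀ t, lf (b t) (fun l => ∑ t, c l t • y t) = y t := by
  classical
  obtain ⟨V, hV⟩ := U.exists_isCompl
  let bV := Module.finBasis k V
  let pr : (σ → k) →ₗ[k] V := V.projectionOnto U hV.symm
  let c : σ → Fin (Module.finrank k V) → k := fun l t => bV.repr (pr (Pi.single l 1)) t
  have hA : ∀ (a : σ → k) (t : Fin (Module.finrank k V)),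
      ∑ l, a l * c l t = bV.repr (pr a) t := by
    intro a t
    have h1 : a = ∑ l, a l • (Pi.single l (1 : k) : σ → k) := by
      funext l'
      simp [Finset.sum_apply, Pi.single_apply]
    conv_rhs => rw [h1]
    simp only [map_sum, map_smul, Finsupp.coe_finsetSum, Finset.sum_apply, Finsupp.coe_smul,
      Pi.smul_apply, smul_eq_mul]
    rfl
  have hB : ∀ (S : Type) [AddCommGroup S] [Module k S] (y : Fin (Module.finrank k V) → S)
      (a : σ → k), lf a (fun l => ∑ t, c l t • y t) = ∑ t, bV.repr (pr a) t • y t := by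
    intro S _ _ y a
    unfold lf
    simp only [Finset.smul_sum, smul_smul]
    rw [Finset.sum_comm]
    refine Finset.sum_congr rfl fun t _ => ?_
    rw [← Finset.sum_smul, hA]
  refine ⟨Module.finrank k V, fun t => (bV t : σ → k), c, ?_, ?_, ?_⟩
  · have h1 := Submodule.finrank_add_eq_of_isCompl hV
    rw [Module.finrank_fintype_fun_eq_card] at h1
    omega
  · intro S _ _ x hx l
    have h1 : ∑ t, c l t • lf (bV t : σ → k) x =
        lfK x ((pr (Pi.single l 1) : V) : σ → k) := by
      have h2 : ((pr (Pi.single l 1) : V) : σ → k) = ∑ t, c l t • (bV t : σ → k) := by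
        conv_lhs => rw [← bV.sum_repr (pr (Pi.single l 1))]
        rw [Submodule.coe_sum]
        rfl
      rw [h2, map_sum]
      refine Finset.sum_congr rfl fun t _ => ?_
      rw [map_smul]
      rfl
    have h3 : (Pi.single l (1 : k) : σ → k) - ((pr (Pi.single l 1) : V) : σ → k) ∈ U := by
      rw [← Submodule.projectionOnto_apply_eq_zero_iff hV.symm, map_sub]
      change pr _ - pr _ = 0
      have h4 : pr ((pr (Pi.single l 1) : V) : σ → k) = pr (Pi.single l 1) :=
        Submodule.projectionOnto_apply_left hV.symm _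
      rw [h4, sub_self]
    have h5 := hx _ h3
    rw [← lfK_apply, map_sub, sub_eq_zero] at h5
    rw [h1, ← h5, lfK_apply]
    unfold lf
    rw [Finset.sum_eq_single l]
    · simp
    · intro l' _ hl'
      simp [hl']
    · intro h
      exact absurd (Finset.mem_univ l) h
  · intro S _ _ y
    refine ⟨fun a ha => ?_, fun t => ?_⟩
    · rw [hB]
      have h1 : pr a = 0 := (Submodule.projectionOnto_apply_eq_zero_iff hV.symm).2 ha
      rw [h1]
      simp
    · rw [hB]
      have h1 : pr (bV t : σ → k) = bV t := Submodule.projectionOnto_apply_left hV.symm _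
      rw [h1, Finset.sum_eq_single t]
      · simp
      · intro t' _ ht'
        simp [Finsupp.single_apply, ht'.symm]
      · intro h
        exact absurd (Finset.mem_univ t) h

end coord

theorem ker : KerStmt := by
  intro k _ σ ι _ _ β wβ R _ L0 χ L m F Y hY wu u M ω θ h h'
  obtain ⟨n, b, c, hn, h1, h2⟩ := exists_coord (spn L F)
  have hn' : n = Fintype.card σ - rk L F := by
    unfold rk
    omega
  have hU : ∀ {S : Type} [CommRing S] [Algebra k S] (x : σ → S),
      (∀ i ∈ F, lf (L i) x = 0) → ∀ a ∈ spn L F, lf a x = 0 := by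
    intro S _ _ x hx a ha
    have h3 : spn L F ≤ LinearMap.ker (lfK (k := k) x) := by
      refine Submodule.span_le.2 ?_
      rintro _ ⟨j, hj, rfl⟩
      exact hx j hj
    exact h3 ha
  have hug : ∀ {S : Type} [CommRing S] [Algebra k S]
      (z : (Y.times (SS L F F θ)).F.obj S), (ug Y u (gS L m F F θ)).fn z = u.fn z.1 := by
    intro S _ _ z
    change u.fn z.1 * ∏ i ∈ F \ F, lf (L i) z.2.1 ^ m i = u.fn z.1
    rw [Finset.sdiff_self, Finset.prod_empty, mul_one]
  refine ⟨by unfold rk; omega, ?_⟩
  have hiso : OIso (JJ L m F M ω θ (Y.times (SS L F F θ)) (ug Y u (gS L m F F θ)) h')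
      ((JJ L m F M ω θ Y u h).times (GF.lines k (Fin n) θ)) := by
    refine OIso.mk'
      (fun S _ _ x => (⟨(x.1.1.1, x.1.2), ?_⟩, fun t => lf (b t) x.1.1.2.1))
      (fun S _ _ y => ⟨((y.1.1.1, ⟨fun l => ∑ t, c l t • y.2 t, ?_⟩), y.1.1.2), ?_⟩)
      ?_ ?_ ?_ ?_
    · have hx := x.2
      change IsT M (C ((ug Y u (gS L m F F θ)).fn x.1.1) * pp L m F x.1.2.1) at hx
      rw [hug] at hx
      exact hx
    · intro i hi
      exact ⟨fun _ => (h2 S y.2).1 _ (Submodule.subset_span ⟨i, hi, rfl⟩), fun hi' =>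
        absurd hi hi'⟩
    · change IsT M (C ((ug Y u (gS L m F F θ)).fn (y.1.1.1, _)) * pp L m F y.1.1.2.1)
      rw [hug]
      exact y.1.2
    · intro S _ _ x
      refine Subtype.ext (Prod.ext (Prod.ext rfl (Subtype.ext (funext fun l => ?_))) rfl)
      exact h1 S x.1.1.2.1 (hU _ fun i hi => (x.1.1.2.2 i hi).1 hi) l
    · intro S _ _ y
      exact Prod.ext rfl (funext fun t => (h2 S y.2).2 t)
    · intro S S' _ _ _ _ φ ch x
      exact Prod.ext rfl (funext fun t => lf_tw0 (b t) θ φ ch x.1.1.2.1)
    · intro S _ _ x bb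
      rfl
  have hFT : FT (JJ L m F M ω θ (Y.times (SS L F F θ)) (ug Y u (gS L m F F θ)) h').F :=
    FT_JJ L m F M ω θ (hY.prod (FT_SS L F F θ)) _ h'
  rw [χ.iso hFT hiso, χ.times_lines (FT_JJ L m F M ω θ hY u h) (Fin n) θ, Nat.card_fin, hn']

end Pool.Agent.NDM.H63
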